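import Pool.Agent.Helper710.EqFin

set_option autoImplicit false

/-!
The number of equilibria of `n` point charges can grow cubically.

`potential q a x = ∑ j, q j / dist x (a j)` on `ℝ³`, `equilibria q a` is the set of the points
`x ∉ range a` with vanishing gradient and `HasNondegenerateHessianAt` says that the Hessian is
non-degenerate (these are the definitions of the frozen statements of the problem,
`Pool.Prelude.Def_F_d420a142`).

* For every `n ≥ 26` there are `n` non-zero charges at distinct points of `ℝ³`, all of whose
  equilibria are non-degenerate, with at least `n³ / 3072` equilibria.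
* Hence for all real `C` and `d < 3` the bound `C n ^ d` fails for all large `n`.
-/

open N62f3cee0

namespace Pool.Agent.Results.MP_992d6e_an.CubicGrowth

/-- For every `n ≥ 26` some configuration of `n` charges, all of whose equilibria are
non-degenerate, has at least `n³/3072` equilibria; for all real `C` and `d < 3`, for all large `n`
some configuration of `n` charges, all of whose equilibria are non-degenerate, has more than
`C n ^ d` equilibria. -/
theorem result :
    (∀ n : ℕ, 26 ≤ n → ∃ (q : Fin n → ℝ) (a : Fin n → EuclideanSpace ℝ (Fin 3)),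
      Function.Injective a ∧ (∀ j, q j ≠ 0) ∧
      (∀ x ∈ equilibria q a, HasNondegenerateHessianAt (potential q a) x) ∧
      ∃ m : ℕ, n ^ 3 ≤ 3072 * m ∧ (m : ℕ∞) ≤ (equilibria q a).encard) ∧
    (∀ C d : ℝ, d < 3 → ∃ n0 : ℕ, ∀ n ≥ n0,
      ∃ (q : Fin n → ℝ) (a : Fin n → EuclideanSpace ℝ (Fin 3)),
      Function.Injective a ∧ (∀ j, q j ≠ 0) ∧
      (∀ x ∈ equilibria q a, HasNondegenerateHessianAt (potential q a) x) ∧
      ∃ m : ℕ, C * (n : ℝ) ^ d < m ∧ (m : ℕ∞) ≤ (equilibria q a).encard) :=
  ⟨Pool.Agent.Helper710.Eqb.cubic_lower_bound, Pool.Agent.Helper710.Eqb.beats_power⟩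

end Pool.Agent.Results.MP_992d6e_an.CubicGrowth
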